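import Pool.Agent.helper34.AC.Spec4

/-!
ac:FMV, neighbours of `v` and the block of `v`.
-/

set_option autoImplicit false

open Filter Topology

namespace Pool.Agent.helper34.AC

theorem FMV_mem {V : Type} (G : SimpleGraph V) (X R S : Finset V) :
    S ∈ st G X R ↔ S ⊆ R ∧ ∀ x ∈ S, (∀ y ∈ S, ¬ G.Adj x y) ∧ ∀ y ∈ X, ¬ G.Adj x y := by
  classical
  unfold st
  rw [Finset.mem_filter, Finset.mem_powerset]

theorem FMV_col {V : Type} (G : SimpleGraph V) (U : Finset V) (P : Finset (Finset V))
    (h : P ∈ col G U) : ∀ B ∈ P, B ⊆ U := by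
  classical
  unfold col at h
  rw [Finset.mem_filter] at h
  exact fun B hB => (h.2.1 B hB).2.1

theorem FMV_DY {V : Type} [DecidableEq V] (Y : Finset V) (P : Finset (Finset V)) (B : Finset V)
    (hB : B ∉ P) : DY Y (insert B P) = (if ¬ Disjoint B Y then B.card else 0) + DY Y P := by
  unfold DY
  rw [Finset.filter_insert]
  split_ifs with h
  · rw [zero_add]
  · rw [Finset.sum_insert (fun h' => hB (Finset.mem_filter.1 h').1)]

theorem FMV_DYi {V : Type} [DecidableEq V] (Y R : Finset V) (P : Finset (Finset V))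
    (hP : ∀ B ∈ P, B ⊆ R) : DY Y P = DY (Y ∩ R) P := by
  unfold DY
  refine Finset.sum_congr (Finset.filter_congr fun B hB => ?_) fun _ _ => rfl
  rw [not_iff_not]
  constructor
  · intro h
    exact h.mono_right Finset.inter_subset_left
  · intro h
    rw [Finset.disjoint_left] at h ⊢
    intro a ha haY
    exact h ha (Finset.mem_inter.2 ⟨haY, hP B hB ha⟩)

theorem FMV_swap {V : Type} [DecidableEq V] (G : SimpleGraph V) (X R : Finset V) (y x : V)
    (hx : x ∈ X) (hxy : G.Adj x y) (S Q : Finset V) :
    (S ∈ st G X R ∧ Q ∈ st G {y} ((R \ S).erase y)) ↔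
      (S ∈ st G X (R.erase y \ Q) ∧ Q ∈ st G {y} (R.erase y)) := by
  rw [FMV_mem, FMV_mem, FMV_mem, FMV_mem]
  constructor
  · rintro ⟨⟨h1, h2⟩, h3, h4⟩
    have hyS : y ∉ S := fun hy => (h2 y hy).2 x hx hxy.symm
    refine ⟨⟨?_, h2⟩, ?_, h4⟩
    · intro s hs
      rw [Finset.mem_sdiff, Finset.mem_erase]
      refine ⟨⟨fun h => hyS (h ▸ hs), h1 hs⟩, fun hsQ => ?_⟩
      have := h3 hsQ
      rw [Finset.mem_erase, Finset.mem_sdiff] at this
      exact this.2.2 hs
    · intro q hq
      have := h3 hq
      rw [Finset.mem_erase, Finset.mem_sdiff] at this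
      exact Finset.mem_erase.2 ⟨this.1, this.2.1⟩
  · rintro ⟨⟨h1, h2⟩, h3, h4⟩
    refine ⟨⟨?_, h2⟩, ?_, h4⟩
    · intro s hs
      have := h1 hs
      rw [Finset.mem_sdiff, Finset.mem_erase] at this
      exact this.1.2
    · intro q hq
      have hq' := Finset.mem_erase.1 (h3 hq)
      rw [Finset.mem_erase, Finset.mem_sdiff]
      refine ⟨hq'.1, hq'.2, fun hqS => ?_⟩
      have := h1 hqS
      rw [Finset.mem_sdiff] at this
      exact this.2 hq

theorem FMV_gen (hREC : REC_stmt) (hDEC : DEC_stmt) (hFM1 : FM1_stmt) :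
    ∀ (n : ℕ) (V : Type) [DecidableEq V] (G : SimpleGraph V) (X R Y : Finset V) (o : ℕ → ℝ),
      R.card = n → Y ⊆ R → (∀ y ∈ Y, ∃ x ∈ X, G.Adj x y) → Monotone o → Om G R o →
      Mk G X R 1 ≤ ∑ S ∈ st G X R, ∑ P ∈ col G (R \ S), o (R.card - DY Y P) := by
  intro n
  induction n using Nat.strong_induction_on with
  | _ n ih =>
    intro V _ G X R Y o hn hYR hY ho hOm
    rcases Y.eq_empty_or_nonempty with rfl | ⟨y, hy⟩
    · have h1 := hFM1 V G X R o ho hOm
      refine h1.trans (le_of_eq ?_)
      unfold Mk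
      rw [Finset.mul_sum]
      refine Finset.sum_congr rfl fun S _ => ?_
      have h2 : ∀ P ∈ col G (R \ S), o (R.card - DY ∅ P) = o R.card := by
        intro P _
        have : DY (∅ : Finset V) P = 0 := by
          unfold DY
          rw [Finset.filter_false_of_mem]
          · simp
          · intro B _
            simp
        rw [this, Nat.sub_zero]
      rw [Finset.sum_congr rfl h2, Finset.sum_const, nsmul_eq_mul, Nat.descFactorial_zero,
        Nat.cast_one, one_mul]
      unfold N
      ring
    · obtain ⟨x, hx, hxy⟩ := hY y hy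
      have hyR : y ∈ R := hYR hy
      rw [hDEC V G X R y x 1 hyR hx hxy]
      -- the right hand side
      have hR : ∑ S ∈ st G X R, ∑ P ∈ col G (R \ S), o (R.card - DY Y P) =
          ∑ Q ∈ st G {y} (R.erase y), ∑ S ∈ st G X (R.erase y \ Q),
            ∑ P ∈ col G ((R.erase y \ Q) \ S),
              o ((R.erase y \ Q).card - DY (Y ∩ (R.erase y \ Q)) P) := by
        have e1 : ∀ S ∈ st G X R, ∑ P ∈ col G (R \ S), o (R.card - DY Y P) =
            ∑ Q ∈ st G {y} ((R \ S).erase y), ∑ P ∈ col G ((R \ S).erase y \ Q),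
              o (R.card - DY Y (insert (insert y Q) P)) := by
          intro S hS
          have hyS : y ∉ S := fun h => (((FMV_mem G X R S).1 hS).2 y h).2 x hx hxy.symm
          exact hREC V G (R \ S) y (fun P => o (R.card - DY Y P))
            (Finset.mem_sdiff.2 ⟨hyR, hyS⟩)
        rw [Finset.sum_congr rfl e1,
          Finset.sum_comm' (s' := fun Q => st G X (R.erase y \ Q)) (t' := st G {y} (R.erase y))
            (fun S Q => FMV_swap G X R y x hx hxy S Q)]
        refine Finset.sum_congr rfl fun Q hQ => Finset.sum_congr rfl fun S _ => ?_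
        have hQR := ((FMV_mem G {y} (R.erase y) Q).1 hQ).1
        have hyQ : y ∉ Q := fun h => (Finset.mem_erase.1 (hQR h)).1 rfl
        have e2 : (R \ S).erase y \ Q = (R.erase y \ Q) \ S := by
          ext a
          simp only [Finset.mem_sdiff, Finset.mem_erase]
          tauto
        rw [e2]
        refine Finset.sum_congr rfl fun P hP => ?_
        have hPs := FMV_col G _ P hP
        have hnot : insert y Q ∉ P := by
          intro h
          have := hPs _ h (Finset.mem_insert_self y Q)
          rw [Finset.mem_sdiff, Finset.mem_sdiff, Finset.mem_erase] at this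
          exact this.1.1.1 rfl
        have hmeet : ¬ Disjoint (insert y Q) Y := by
          rw [Finset.not_disjoint_iff]
          exact ⟨y, Finset.mem_insert_self y Q, hy⟩
        have hPs' : ∀ B ∈ P, B ⊆ R.erase y \ Q := fun B hB => (hPs B hB).trans Finset.sdiff_subset
        rw [FMV_DY Y P _ hnot, if_pos hmeet, Finset.card_insert_of_notMem hyQ,
          FMV_DYi Y (R.erase y \ Q) P hPs']
        have hc1 : (R.erase y \ Q).card + Q.card = (R.erase y).card :=
          Finset.card_sdiff_add_card_eq_card hQR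
        have hc2 : (R.erase y).card + 1 = R.card := Finset.card_erase_add_one hyR
        congr 1
        omega
      rw [hR]
      refine Finset.sum_le_sum fun Q hQ => ?_
      have hQR := ((FMV_mem G {y} (R.erase y) Q).1 hQ).1
      have hlt : (R.erase y \ Q).card < n := by
        have hc1 : (R.erase y \ Q).card ≤ (R.erase y).card := Finset.card_le_card Finset.sdiff_subset
        have hc2 : (R.erase y).card + 1 = R.card := Finset.card_erase_add_one hyR
        omega
      refine ih _ hlt V G X (R.erase y \ Q) (Y ∩ (R.erase y \ Q)) o rfl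
        Finset.inter_subset_right (fun z hz => hY z (Finset.mem_inter.1 hz).1) ho ?_
      intro U hU
      exact hOm U (hU.trans (Finset.sdiff_subset.trans (Finset.erase_subset _ _)))

theorem FMV (hREC : REC_stmt) (hDEC : DEC_stmt) (hFM1 : FM1_stmt) (_hRCN : RCN_stmt) :
    FMV_stmt := by
  intro V _ G U Y v o hv hYU hY ho hOm
  have hvY : v ∉ Y := fun h => G.loopless.irrefl v (hY v h)
  have hYR : Y ⊆ U.erase v := fun y hy => Finset.mem_erase.2 ⟨fun h => hvY (h ▸ hy), hYU hy⟩
  have h1 := FMV_gen hREC hDEC hFM1 _ V G {v} (U.erase v) Y o rfl hYR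
    (fun y hy => ⟨v, Finset.mem_singleton_self v, hY y hy⟩) ho hOm
  refine h1.trans (le_of_eq ?_)
  rw [hREC V G U v (fun P => o (U.card - 1 - DY Y P)) hv]
  refine Finset.sum_congr rfl fun S hS => Finset.sum_congr rfl fun P hP => ?_
  have hPs := FMV_col G _ P hP
  have hnot : insert v S ∉ P := by
    intro h
    have := hPs _ h (Finset.mem_insert_self v S)
    rw [Finset.mem_sdiff, Finset.mem_erase] at this
    exact this.1.1 rfl
  have hdis : Disjoint (insert v S) Y := by
    rw [Finset.disjoint_left]
    intro a ha haY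
    rcases Finset.mem_insert.1 ha with rfl | haS
    · exact hvY haY
    · exact (((FMV_mem G {v} (U.erase v) S).1 hS).2 a haS).2 v (Finset.mem_singleton_self v)
        (hY a haY).symm
  rw [FMV_DY Y P _ hnot, if_neg (not_not.2 hdis), zero_add, Finset.card_erase_of_mem hv]

end Pool.Agent.helper34.AC
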