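import Pool.Agent.helper34.AC.Spec

/-!
ac:LTW, `L_2(n,r)` and `L_1(n)` by means of `F`.
-/

set_option autoImplicit false

namespace Pool.Agent.helper34.AC

theorem LTW_avg {V : Type} [Fintype V] (G : SimpleGraph V) (h : 0 < N G Finset.univ) :
    avg G + 1 = N1 G Finset.univ / N G Finset.univ := by
  unfold avg
  unfold N at h
  unfold N1 N
  rw [Finset.sum_add_distrib, add_div, Finset.sum_const, nsmul_eq_mul, mul_one, div_self h.ne']

theorem LTW_card (n r : ℕ) (h : r ≤ n) :
    (Finset.univ.filter fun x : Fin n => x.1 < r).card = r ∧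
    (Finset.univ.filter fun x : Fin n => ¬ x.1 < r).card = n - r := by
  have h1 : (Finset.univ.filter fun x : Fin n => x.1 < r).card = r := by
    rw [Fin.card_filter_val_lt]
    exact min_eq_right h
  refine ⟨h1, ?_⟩
  have h2 := Finset.card_filter_add_card_filter_not (s := (Finset.univ : Finset (Fin n)))
    (fun x : Fin n => x.1 < r)
  rw [h1, Finset.card_univ, Fintype.card_fin] at h2
  omega

theorem LTW (hK : KUN_stmt) (hB : BRC_stmt) : LTW_stmt := by
  obtain ⟨_, _, hF0, _, hFpos, hbl, _⟩ := hB
  refine ⟨?_, ?_, ?_⟩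
  · intro n r hr
    obtain ⟨hc1, hc2⟩ := LTW_card n r hr
    have huniv : (Finset.univ.filter fun x : Fin n => x.1 < r) ∪
        (Finset.univ.filter fun x : Fin n => ¬ x.1 < r) = Finset.univ :=
      Finset.filter_union_filter_not_eq _ _
    obtain ⟨h1, h2⟩ := hK (Fin n) (KU n r) (Finset.univ.filter fun x : Fin n => x.1 < r)
      (Finset.univ.filter fun x : Fin n => ¬ x.1 < r) (Finset.disjoint_filter_filter_not _ _ _)
      (by
        intro x hx y hy hxy
        exact ⟨hxy, (Finset.mem_filter.1 hx).2, (Finset.mem_filter.1 hy).2⟩)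
      (by
        intro x hx y _ hadj
        exact (Finset.mem_filter.1 hx).2 hadj.2.1)
    rw [huniv, hc1, hc2] at h1 h2
    have hpos : 0 < N (KU n r) Finset.univ := by
      rw [h1]
      exact hFpos _ _ (Nat.cast_nonneg _)
    unfold L2
    rw [LTW_avg _ hpos, h1, h2]
  · intro n
    obtain ⟨h1, h2⟩ := hK (Fin n) (⊥ : SimpleGraph (Fin n)) ∅ Finset.univ
      (Finset.disjoint_empty_left _) (by simp) (by simp)
    rw [Finset.empty_union, Finset.card_empty, Finset.card_univ, Fintype.card_fin,
      Nat.cast_zero, hF0] at h1 h2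
    have hpos : 0 < N (⊥ : SimpleGraph (Fin n)) Finset.univ := by
      rw [h1]
      exact hbl n
    unfold L1
    rw [LTW_avg _ hpos, h1, h2]
    rfl
  · intro V _ G U hU
    obtain ⟨h1, h2⟩ := hK V G ∅ U (Finset.disjoint_empty_left _) (by simp)
      (by
        intro x hx y hy
        rw [Finset.empty_union] at hy
        exact hU x hx y hy)
    rw [Finset.empty_union, Finset.card_empty, Nat.cast_zero, hF0] at h1 h2
    rw [h1, h2]
    unfold gb
    rw [div_mul_cancel₀ _ (hbl _).ne']

end Pool.Agent.helper34.AC
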