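import Pool.Agent.helper34.AC.Spec2

/-!
ac:PC, graphs with chromatic number at most `√(e n)/2`.
-/

set_option autoImplicit false

namespace Pool.Agent.helper34.AC

theorem PC_thr (e : ℝ) (he : 0 < e) : ∃ A : ℝ, 1 ≤ A ∧ ∀ a : ℝ, A ≤ a → 2 / e ≤ Real.log a ∧
    e * Real.log a ≤ a := by
  have h1 : ∀ᶠ a : ℝ in Filter.atTop, 2 / e ≤ Real.log a :=
    Real.tendsto_log_atTop.eventually_ge_atTop _
  have h2 : ∀ᶠ a : ℝ in Filter.atTop, ‖Real.log a‖ ≤ 1 / e * ‖id a‖ :=
    Real.isLittleO_log_id_atTop.def (by positivity)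
  obtain ⟨B, hB⟩ := Filter.eventually_atTop.1 (h1.and h2)
  refine ⟨max B 1, le_max_right _ _, fun a ha => ⟨(hB a ((le_max_left _ _).trans ha)).1, ?_⟩⟩
  have h3 := (hB a ((le_max_left _ _).trans ha)).2
  have ha1 : 1 ≤ a := (le_max_right _ _).trans ha
  rw [Real.norm_eq_abs, Real.norm_eq_abs, id, abs_of_nonneg (Real.log_nonneg ha1),
    abs_of_nonneg (by linarith)] at h3
  calc e * Real.log a ≤ e * (1 / e * a) := by gcongr
    _ = a := by field_simp

theorem PC (hPA : PA_stmt) (hCHR : CHR_stmt) (hBUP : BUP_stmt) (hLTW : LTW_stmt) : PC_stmt := by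
  classical
  intro e he
  obtain ⟨A, hA1, hA⟩ := PC_thr e he
  refine ⟨⌊A * Real.log A⌋₊ + 1, ?_⟩
  intro V _ G r hn hr hre
  obtain ⟨hravg, hrn⟩ := hCHR V G r hr.le
  have hPA1 := (hPA V G).1
  set n := Fintype.card V with hnd
  set a := avg G + 1 with had
  have hr0 : (0 : ℝ) ≤ r := Nat.cast_nonneg r
  have ha1 : 1 ≤ a := by linarith
  have haA : A ≤ a := by
    by_contra hlt
    rw [not_le] at hlt
    have h1 : a * Real.log a ≤ A * Real.log A := by
      have := Real.log_le_log (by linarith) hlt.le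
      have h0 := Real.log_nonneg ha1
      exact mul_le_mul hlt.le this h0 (by linarith)
    have h2 : A * Real.log A < ⌊A * Real.log A⌋₊ + 1 := Nat.lt_floor_add_one _
    have h3 : ((⌊A * Real.log A⌋₊ + 1 : ℕ) : ℝ) ≤ n := by exact_mod_cast hn
    push_cast at h3
    linarith
  obtain ⟨hl, hel⟩ := hA a haA
  have hZeq := hLTW.1 n r hrn
  obtain ⟨hZ1, hZ2⟩ := hBUP (n - r) r hr0
  rw [← hZeq] at hZ1 hZ2
  set Z := L2 n r + 1 with hZd
  by_cases hZa : Z ≤ a
  · linarith
  · rw [not_le] at hZa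
    have hcast : ((n - r : ℕ) : ℝ) = (n : ℝ) - r := by rw [Nat.cast_sub hrn]
    rw [hcast] at hZ2
    have hZ0 : 0 < Z := by linarith
    have ha0 : 0 < a := by linarith
    have hxpos : 0 < Z - r := by linarith
    have hlog0 : 0 < Real.log a := lt_of_lt_of_le (by positivity) hl
    -- r ≤ a/2
    have hr2 : (r : ℝ) ≤ a / 2 := by
      have h1 : (r : ℝ) ^ 2 ≤ (a / 2) ^ 2 := by
        calc (r : ℝ) ^ 2 ≤ e / 4 * n := hre
          _ ≤ e / 4 * (a * Real.log a) := by gcongr
          _ = a / 4 * (e * Real.log a) := by ring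
          _ ≤ a / 4 * a := by gcongr
          _ = (a / 2) ^ 2 := by ring
      exact le_of_sq_le_sq h1 (by linarith)
    have hx2 : a / 2 ≤ Z - r := by linarith
    -- lower bound of the logarithm
    have hlogx : Real.log Z + 1 - Z / (Z - r) ≤ Real.log (Z - r) := by
      have h1 := Real.one_sub_inv_le_log_of_pos (div_pos hxpos hZ0)
      rw [Real.log_div hxpos.ne' hZ0.ne', inv_div] at h1
      linarith
    have hX : Z * Real.log Z ≤ n + 1 + r ^ 2 / (Z - r) := by
      have h1 : Z * (Real.log Z + 1 - Z / (Z - r)) ≤ Z * Real.log (Z - r) := by gcongr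
      have h2 : Z * (Real.log Z + 1 - Z / (Z - r)) = Z * Real.log Z - r - r ^ 2 / (Z - r) := by
        field_simp
        ring
      rw [h2] at h1
      linarith
    have hX2 : (r : ℝ) ^ 2 / (Z - r) ≤ e / 2 * Real.log a := by
      rw [div_le_iff₀ hxpos]
      calc (r : ℝ) ^ 2 ≤ e / 4 * n := hre
        _ ≤ e / 4 * (a * Real.log a) := by gcongr
        _ = e / 2 * Real.log a * (a / 2) := by ring
        _ ≤ e / 2 * Real.log a * (Z - r) := by gcongr
    have hconv : (Z - a) * (1 + Real.log a) ≤ Z * Real.log Z - a * Real.log a := by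
      have h1 := Real.one_sub_inv_le_log_of_pos (div_pos hZ0 ha0)
      rw [Real.log_div hZ0.ne' ha0.ne', inv_div] at h1
      have h2 : Z * (1 - a / Z) ≤ Z * (Real.log Z - Real.log a) := by gcongr
      have h3 : Z * (1 - a / Z) = Z - a := by field_simp
      rw [h3] at h2
      nlinarith
    have hfin : (Z - a) * (1 + Real.log a) ≤ e * (1 + Real.log a) := by
      have h1 : 1 ≤ e / 2 * Real.log a := by
        have h2 : e / 2 * (2 / e) ≤ e / 2 * Real.log a := by gcongr
        have h3 : e / 2 * (2 / e) = 1 := by field_simp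
        linarith
      nlinarith
    have := le_of_mul_le_mul_right hfin (by linarith)
    linarith

end Pool.Agent.helper34.AC
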